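import Pool.Agent.R655.HC.Fam

/-!
# MP_4be043_ag: counterexamples to Hartshorne's conjecture grow exponentially with the dimension

Hartshorne's conjecture says that `CH^i(X) = ℚ[h^i]` for every smooth hypersurface `X` of dimension
`n > 2i`; the Chow groups have rational coefficients.

Let `X = {F = 0}` be a smooth hypersurface of degree `d ≥ 2` and dimension `n`, and let `Y` be the
hypersurface `F(x) + y ^ d - z ^ d = 0` of dimension `n + 2`. For each `d`-th root of unity `e` the
hypersurface `Y` contains the cone `C_e = {F = 0, y = e z}` over `X`. The cone over a class of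
codimension `i` on `X` is a class of codimension `i + 1` on `Y`. Two different cones meet
transversally in `X`, and the sum of the `d` cones over a class of degree zero vanishes. So the
intersection matrix of the cones is, on classes of degree zero, `J - d`, with `J` the matrix all of
whose entries are `1`; its rank is `d - 1`.

**Theorem.** (1) If `CH^{i+m}(Y) = ℚ[H^{i+m}]` for the hypersurfaces `Y` of degree `d` and dimension
`n + 2m`, then `CH^i(X) = ℚ[h^i]` for those of dimension `n`.

(2) Let `X` be of dimension `n` and `i ≤ n`. If the classes of codimension `i` and degree zero on `X`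
have rank `r`, then for every `m` there is a hypersurface `Y` of degree `d` and dimension `n + 2m` on
which the classes of codimension `i + m` and degree zero have rank at least `(d - 1) ^ m r`. If
`CH^i(X) ≠ ℚ[h^i]`, then `dim CH^{i+m}(Y) ≥ (d - 1) ^ m + 1`.

(3) Hartshorne's conjecture holds for the hypersurfaces of degree `d` if and only if for every `n`
there is an `m` such that `dim CH^j(Y) ≤ (d - 1) ^ m` for all hypersurfaces `Y` of degree `d` and
dimension `n + 2m` and all `j < dim Y / 2`. In particular it holds if these dimensions are bounded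
by a function `B(dim Y)` with `B(m) / (d - 1) ^ (m / 2) → 0`.

The Chow groups are given by a `ChowTheory` on a class of smooth proper varieties, see
`Pool/Agent/R903/Chow.lean`. What is used of the geometry of the cones is the structure
`ConeDiagram`, and the structure `HypersurfaceFamily` says that a family of varieties contains with
`X` such a variety `Y`; see `Pool/Agent/R655/HC/Defs.lean`.
-/

set_option autoImplicit false

open CategoryTheory AlgebraicGeometry Filter Topology
open Pool.Agent.H914 Pool.Agent.H914.VarClass Pool.Agent.H914.VarClass.Obj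
open Pool.Agent.R903 Pool.Agent.R655.HC

universe u v

namespace Pool.Agent.Results.MP_4be043_ag.ConesOverHypersurfaces

theorem result {k : Type u} [Field k] {𝒱 : VarClass k} (C : ChowTheory.{u, v} 𝒱) (d : ℕ)
    (hd : 2 ≤ d) (ℋ : HypersurfaceFamily C d) :
    -- (1) descent
    (∀ n i m : ℕ, ℋ.TrivialAt (n + 2 * m) (i + m) → ℋ.TrivialAt n i) ∧
    -- (2) growth
    (∀ (n i m : ℕ) (X : 𝒱.Obj) (h : C.CH X), i ≤ n → ℋ.mem n X h →
      ℋ.LargePrimAt (n + 2 * m) (i + m) (((d - 1 : ℕ) : Cardinal) ^ m * primRank C n i X h)) ∧
    (∀ n i m : ℕ, i ≤ n → ¬ ℋ.TrivialAt n i → ℋ.LargeAt (n + 2 * m) (i + m) ((d - 1) ^ m + 1)) ∧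
    -- (3) the conjecture is a statement on growth
    (ℋ.Conj ↔ ∀ n : ℕ, ∃ m : ℕ, ℋ.BoundedAt (n + 2 * m) ((d - 1) ^ m)) ∧
    (∀ B : ℕ → ℕ, IsSmall d B → (∀ m : ℕ, ℋ.BoundedAt m (B m)) → ℋ.Conj) := by
  refine ⟨fun n i m => ℋ.trivialAt_of_add hd m, fun n i m X h hi hX => ℋ.growth hi hX m,
    fun n i m hi hne => ?_, ℋ.conj_iff hd, fun B hB h1 => ℋ.conj_of_growth hd B hB h1⟩
  unfold HypersurfaceFamily.TrivialAt at hne
  push Not at hne
  obtain ⟨X, h, hX, hne⟩ := hne
  exact ℋ.growth_of_ne (by omega) hi hX hne m

end Pool.Agent.Results.MP_4be043_ag.ConesOverHypersurfaces
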